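import Mathlib

/-!
# The strong geodetic number of a Cartesian product can be smaller than that of a factor

Let `G = K_{2,11}` and `H = C_5`, and let `S` consist of the ten vertices `(a, h)` and `(b, h)` of
`G □ H`, where `a, b` are the two vertices of the small side of `G`. For an ordered pair `(h, h')`
of vertices of `H` the geodesic chosen for `(a, h)` and `(b, h')` passes through one column
`{i} × H`, `i` in the large side of `G`, and there covers the geodesic of `H` from `h` to `h'`.
The `5`-cycle is the union of the geodesic of a pair at distance two and the geodesic of a pair at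
distance one; so the ten ordered pairs at distance two together with the ten ordered pairs at
distance one cover ten columns, and the five pairs `(h, h)` cover the eleventh column. Hence
`sg (G □ H) ≤ 10`, while `sg G = 11`.
-/

set_option autoImplicit false

namespace Pool.Agent.Results.MP_8400ad_co.ProductBelowFactor

open SimpleGraph Finset

/-- `S` is a strong geodetic set of `G`: for every unordered pair of distinct vertices `x, y` of `S`
one geodesic (a walk from `x` to `y` whose length is the distance of `x` and `y`) is chosen, with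
vertex set `P x y = P y x`, and every vertex of `G` lies on at least one of the chosen
geodesics. -/
def IsStrongGeodeticSet {V : Type*} (G : SimpleGraph V) (S : Finset V) : Prop :=
  ∃ P : V → V → Set V,
    (∀ x ∈ S, ∀ y ∈ S, x ≠ y → P x y = P y x ∧
      ∃ p : G.Walk x y, p.length = G.dist x y ∧ P x y = {v | v ∈ p.support}) ∧
    ∀ v, ∃ x ∈ S, ∃ y ∈ S, x ≠ y ∧ v ∈ P x y

/-- The strong geodetic number: the least size of a strong geodetic set. -/
noncomputable def strongGeodeticNumber {V : Type*} (G : SimpleGraph V) : ℕ :=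
  sInf {k : ℕ | ∃ S : Finset V, S.card = k ∧ IsStrongGeodeticSet G S}

/-- The complete bipartite graph `K_{2,11}`. -/
abbrev GG : SimpleGraph (Fin 2 ⊕ Fin 11) := completeBipartiteGraph (Fin 2) (Fin 11)

/-- The cycle `C_5`. -/
abbrev HH : SimpleGraph (Fin 5) := cycleGraph 5

theorem GG_walk (x y : Fin 2 ⊕ Fin 11) : ∃ p : GG.Walk x y, p.length ≤ 2 := by
  have hlr : ∀ (a : Fin 2) (i : Fin 11), GG.Adj (Sum.inl a) (Sum.inr i) := by
    intro a i; simp
  have hrl : ∀ (a : Fin 2) (i : Fin 11), GG.Adj (Sum.inr i) (Sum.inl a) := by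
    intro a i; simp
  rcases x with a | i <;> rcases y with b | j
  · exact ⟨.cons (hlr a 0) (.cons (hrl b 0) .nil), by simp⟩
  · exact ⟨.cons (hlr a j) .nil, by simp⟩
  · exact ⟨.cons (hrl b i) .nil, by simp⟩
  · exact ⟨.cons (hrl 0 i) (.cons (hlr 0 j) .nil), by simp⟩

theorem GG_connected : GG.Connected := by
  have : Nonempty (Fin 2 ⊕ Fin 11) := ⟨Sum.inl 0⟩
  refine Connected.mk (fun x y => ?_)
  obtain ⟨p, _⟩ := GG_walk x y
  exact ⟨p⟩

theorem GG_dist_le (x y : Fin 2 ⊕ Fin 11) : GG.dist x y ≤ 2 := by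
  obtain ⟨p, hp⟩ := GG_walk x y
  exact (dist_le p).trans hp

theorem HH_connected : HH.Connected := cycleGraph_connected

/-- A vertex in the support of a walk of length at most two which is not an end is adjacent to
both ends, and it is the only such vertex. -/
theorem walk_two {V : Type*} {G : SimpleGraph V} {x y : V} (p : G.Walk x y) (hp : p.length ≤ 2)
    {u : V} (hu : u ∈ p.support) (hx : u ≠ x) (hy : u ≠ y) :
    G.Adj x u ∧ G.Adj u y ∧ p.support = [x, u, y] := by
  match p, hp, hu with
  | .nil, _, hu => simp at hu; exact absurd hu hx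
  | .cons h .nil, _, hu =>
    simp at hu
    rcases hu with hu | hu
    · exact absurd hu hx
    · exact absurd hu hy
  | .cons h (.cons h' .nil), _, hu =>
    simp at hu
    rcases hu with hu | hu | hu
    · exact absurd hu hx
    · subst hu; exact ⟨h, h', by simp⟩
    · exact absurd hu hy
  | .cons h (.cons h' (.cons h'' q)), hp, _ => simp at hp

theorem fin_two : ∀ a b : Fin 2, a ≠ b → (a = 0 ∧ b = 1) ∨ (a = 1 ∧ b = 0) := by decide

/-- Every strong geodetic set of `K_{2,11}` has at least eleven elements. -/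
theorem lower (S : Finset (Fin 2 ⊕ Fin 11)) (hS : IsStrongGeodeticSet GG S) : 11 ≤ S.card := by
  classical
  obtain ⟨P, hP, hcov⟩ := hS
  -- a right vertex outside `S` is the middle vertex of the geodesic between the left vertices
  have key : ∀ i : Fin 11, Sum.inr i ∉ S →
      Sum.inl 0 ∈ S ∧ Sum.inl 1 ∈ S ∧ (Sum.inr i : Fin 2 ⊕ Fin 11) ∈ P (Sum.inl 0) (Sum.inl 1) := by
    intro i hi
    obtain ⟨x, hx, y, hy, hxy, hv⟩ := hcov (Sum.inr i)
    obtain ⟨hsym, p, hp, hPp⟩ := hP x hx y hy hxy
    have hv' : (Sum.inr i : Fin 2 ⊕ Fin 11) ∈ p.support := by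
      rw [hPp] at hv; exact hv
    have hxi : (Sum.inr i : Fin 2 ⊕ Fin 11) ≠ x := fun h => hi (h ▸ hx)
    have hyi : (Sum.inr i : Fin 2 ⊕ Fin 11) ≠ y := fun h => hi (h ▸ hy)
    obtain ⟨h1, h2, _⟩ := walk_two p (hp ▸ GG_dist_le x y) hv' hxi hyi
    rcases x with a | a
    · rcases y with b | b
      · have hab : a ≠ b := fun h => hxy (by rw [h])
        rcases fin_two a b hab with ⟨rfl, rfl⟩ | ⟨rfl, rfl⟩
        · exact ⟨hx, hy, hv⟩
        · exact ⟨hy, hx, hsym ▸ hv⟩
      · simp at h2
    · simp at h1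
  by_cases hall : ∀ i : Fin 11, Sum.inr i ∈ S
  · have : (univ.image (Sum.inr : Fin 11 → Fin 2 ⊕ Fin 11)) ⊆ S := by
      intro v hv
      obtain ⟨i, _, rfl⟩ := mem_image.1 hv
      exact hall i
    have h2 := card_le_card this
    rwa [card_image_of_injective _ Sum.inr_injective, card_univ, Fintype.card_fin] at h2
  · push Not at hall
    obtain ⟨i, hi⟩ := hall
    obtain ⟨h0, h1, hQ⟩ := key i hi
    have hall' : ∀ j : Fin 11, j ≠ i → Sum.inr j ∈ S := by
      intro j hj
      by_contra hjS
      obtain ⟨_, _, hQ'⟩ := key j hjS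
      obtain ⟨_, p, hp, hPp⟩ := hP _ h0 _ h1 (by simp)
      rw [hPp] at hQ hQ'
      have e1 := (walk_two p (hp ▸ GG_dist_le _ _) hQ (by simp) (by simp)).2.2
      have e2 := (walk_two p (hp ▸ GG_dist_le _ _) hQ' (by simp) (by simp)).2.2
      rw [e1] at e2
      simp at e2
      exact hj e2.symm
    have : insert (Sum.inl 0) ((univ.erase i).image (Sum.inr : Fin 11 → Fin 2 ⊕ Fin 11)) ⊆ S := by
      intro v hv
      rcases mem_insert.1 hv with rfl | hv
      · exact h0
      · obtain ⟨j, hj, rfl⟩ := mem_image.1 hv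
        exact hall' j (ne_of_mem_erase hj)
    have h2 := card_le_card this
    rw [card_insert_of_notMem (by simp), card_image_of_injective _ Sum.inr_injective,
      card_erase_of_mem (mem_univ _), card_univ, Fintype.card_fin] at h2
    exact h2

/-- In a connected graph with at least two vertices the set of all vertices is a strong geodetic
set. -/
theorem univ_strong {V : Type*} [Fintype V] [Nontrivial V] (G : SimpleGraph V)
    (hG : G.Connected) : IsStrongGeodeticSet G (univ : Finset V) := by
  classical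
  have hw : ∀ x y : V, ∃ p : G.Walk x y, p.length = G.dist x y :=
    fun x y => hG.exists_walk_length_eq_dist x y
  choose w hw using hw
  let r := linearOrderOfSTO (WellOrderingRel : V → V → Prop)
  refine ⟨fun x y => if x ≤ y then {v | v ∈ (w x y).support} else {v | v ∈ (w y x).support},
    ?_, ?_⟩
  · intro x _ y _ hxy
    rcases lt_or_gt_of_ne hxy with h | h
    · have h' : ¬ y ≤ x := not_le.2 h
      simp only [if_pos h.le, if_neg h', true_and]
      exact ⟨w x y, hw x y, rfl⟩
    · have h' : ¬ x ≤ y := not_le.2 h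
      simp only [if_pos h.le, if_neg h', true_and]
      refine ⟨(w y x).reverse, ?_, ?_⟩
      · rw [Walk.length_reverse, hw, dist_comm]
      · simp
  · intro v
    obtain ⟨u, hu⟩ := exists_ne v
    refine ⟨v, mem_univ _, u, mem_univ _, hu.symm, ?_⟩
    by_cases h : v ≤ u
    · simp only [if_pos h]
      exact (w v u).start_mem_support
    · simp only [if_neg h]
      exact (w u v).end_mem_support

theorem GG_ge : 11 ≤ strongGeodeticNumber GG := by
  have : Nontrivial (Fin 2 ⊕ Fin 11) := ⟨Sum.inl 0, Sum.inl 1, by simp⟩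
  refine le_csInf ⟨_, univ, rfl, univ_strong GG GG_connected⟩ ?_
  rintro k ⟨S, rfl, hS⟩
  exact lower S hS

/-- The vertices of the geodesic of `C_5` from `h` to `h'`. -/
def seg (h h' : Fin 5) : List (Fin 5) :=
  if h' = h then [h]
  else if h' = h + 1 then [h, h + 1]
  else if h' = h + 2 then [h, h + 1, h + 2]
  else if h' = h + 3 then [h, h + 4, h + 3]
  else [h, h + 4]

/-- The column used by the ordered pair `(h, h')`. -/
def col (h h' : Fin 5) : Fin 11 :=
  if h' = h then 10
  else if h' = h + 1 then (h + 3).castLE (by norm_num)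
  else if h' = h + 2 then (h + 1).castLE (by norm_num)
  else if h' = h + 3 then ((h + 4).natAdd 5).castLE (by norm_num)
  else ((h + 2).natAdd 5).castLE (by norm_num)

theorem seg_symm : ∀ h h' u : Fin 5, u ∈ seg h h' ↔ u ∈ seg h' h := by decide

theorem col_cover : ∀ (i : Fin 11) (u : Fin 5), ∃ h h' : Fin 5, col h h' = i ∧ u ∈ seg h h' := by
  decide

theorem HH_adj (h h' : Fin 5) : HH.Adj h h' ↔ h' = h + 1 ∨ h' = h + 4 := by
  revert h h'; decide

/-- The geodesic of `C_5`. -/
theorem seg_walk (h h' : Fin 5) :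
    ∃ p : HH.Walk h h', p.length = HH.dist h h' ∧ p.support = seg h h' := by
  have a1 : ∀ x : Fin 5, HH.Adj x (x + 1) := by decide
  have a2 : ∀ x : Fin 5, HH.Adj (x + 1) (x + 2) := by decide
  have a3 : ∀ x : Fin 5, HH.Adj x (x + 4) := by decide
  have a4 : ∀ x : Fin 5, HH.Adj (x + 4) (x + 3) := by decide
  have s1 : ∀ x : Fin 5, [x, x + 1] = seg x (x + 1) := by decide
  have s2 : ∀ x : Fin 5, [x, x + 1, x + 2] = seg x (x + 2) := by decide
  have s3 : ∀ x : Fin 5, [x, x + 4, x + 3] = seg x (x + 3) := by decide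
  have s4 : ∀ x : Fin 5, [x, x + 4] = seg x (x + 4) := by decide
  have h2 : ∀ x : Fin 5, ∀ y : Fin 5, (y = x + 2 ∨ y = x + 3) → 2 ≤ HH.dist x y := by
    intro x y hxy
    have hne : x ≠ y := by revert x y; decide
    have hna : ¬ HH.Adj x y := by revert x y; decide
    have h0 : HH.dist x y ≠ 0 := by
      intro h0
      exact hne ((HH_connected.preconnected x y).dist_eq_zero_iff.1 h0)
    have h1 : HH.dist x y ≠ 1 := fun h1 => hna (dist_eq_one_iff_adj.1 h1)
    omega
  have hcases : h' = h ∨ h' = h + 1 ∨ h' = h + 2 ∨ h' = h + 3 ∨ h' = h + 4 := by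
    revert h h'; decide
  rcases hcases with e | e | e | e | e
  · subst e
    exact ⟨.nil, by simp, by simp [seg]⟩
  · subst e
    refine ⟨.cons (a1 h) .nil, ?_, ?_⟩
    · simp [dist_eq_one_iff_adj.2 (a1 h)]
    · simpa using s1 h
  · subst e
    refine ⟨.cons (a1 h) (.cons (a2 h) .nil), ?_, ?_⟩
    · refine le_antisymm ?_ (dist_le _)
      simpa using h2 h _ (Or.inl rfl)
    · simpa using s2 h
  · subst e
    refine ⟨.cons (a3 h) (.cons (a4 h) .nil), ?_, ?_⟩
    · refine le_antisymm ?_ (dist_le _)
      simpa using h2 h _ (Or.inr rfl)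
    · simpa using s3 h
  · subst e
    refine ⟨.cons (a3 h) .nil, ?_, ?_⟩
    · simp [dist_eq_one_iff_adj.2 (a3 h)]
    · simpa using s4 h

theorem dist_prod (x y : (Fin 2 ⊕ Fin 11) × Fin 5) :
    (GG □ HH).dist x y = GG.dist x.1 y.1 + HH.dist x.2 y.2 := by
  have h := edist_boxProd (G := GG) (H := HH) x y
  have r1 := (GG_connected.preconnected x.1 y.1).coe_dist_eq_edist
  have r2 := (HH_connected.preconnected x.2 y.2).coe_dist_eq_edist
  have r3 := ((GG_connected.boxProd HH_connected).preconnected x y).coe_dist_eq_edist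
  rw [← r1, ← r2, ← r3] at h
  exact_mod_cast h

theorem dist_left {a b : Fin 2} (hab : a ≠ b) : GG.dist (Sum.inl a) (Sum.inl b) = 2 := by
  refine le_antisymm (GG_dist_le _ _) ?_
  have h0 : GG.dist (Sum.inl a) (Sum.inl b) ≠ 0 := by
    intro h0
    have := (GG_connected.preconnected _ _).dist_eq_zero_iff.1 h0
    exact hab (Sum.inl_injective this)
  have h1 : GG.dist (Sum.inl a) (Sum.inl b) ≠ 1 := by
    intro h1
    have := dist_eq_one_iff_adj.1 h1
    simp at this
  omega

/-- The chosen geodesics. -/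
def PP : (Fin 2 ⊕ Fin 11) × Fin 5 → (Fin 2 ⊕ Fin 11) × Fin 5 → Set ((Fin 2 ⊕ Fin 11) × Fin 5)
  | (Sum.inl a, h), (Sum.inl b, h') =>
    if a = b then {v | ∃ u ∈ seg h h', v = (Sum.inl a, u)}
    else if a = 0 then
      {v | v = (Sum.inl a, h) ∨ v = (Sum.inl b, h') ∨ ∃ u ∈ seg h h', v = (Sum.inr (col h h'), u)}
    else
      {v | v = (Sum.inl a, h) ∨ v = (Sum.inl b, h') ∨ ∃ u ∈ seg h h', v = (Sum.inr (col h' h), u)}
  | _, _ => ∅

/-- The ten vertices. -/
def SS : Finset ((Fin 2 ⊕ Fin 11) × Fin 5) :=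
  univ.image fun q : Fin 2 × Fin 5 => (Sum.inl q.1, q.2)

theorem SS_card : SS.card = 10 := by
  unfold SS
  rw [card_image_of_injective]
  · rfl
  · rintro ⟨a, h⟩ ⟨b, h'⟩ e
    simp at e
    exact Prod.ext e.1 e.2

theorem mem_SS (x : (Fin 2 ⊕ Fin 11) × Fin 5) :
    x ∈ SS ↔ ∃ (a : Fin 2) (h : Fin 5), x = (Sum.inl a, h) := by
  constructor
  · intro hx
    obtain ⟨q, _, rfl⟩ := mem_image.1 hx
    exact ⟨q.1, q.2, rfl⟩
  · rintro ⟨a, h, rfl⟩
    exact mem_image.2 ⟨(a, h), mem_univ _, rfl⟩

theorem support_boxProdRight {α β : Type*} {G : SimpleGraph α} {H : SimpleGraph β} (a : α)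
    {b b' : β} (q : H.Walk b b') :
    (q.boxProdRight G a).support = q.support.map fun u => (a, u) :=
  Walk.support_map _ _

theorem length_boxProdRight {α β : Type*} {G : SimpleGraph α} {H : SimpleGraph β} (a : α)
    {b b' : β} (q : H.Walk b b') :
    (q.boxProdRight G a).length = q.length :=
  Walk.length_map _ _

theorem upper : IsStrongGeodeticSet (GG □ HH) SS := by
  refine ⟨PP, ?_, ?_⟩
  · intro x hx y hy hxy
    obtain ⟨a, h, rfl⟩ := (mem_SS x).1 hx
    obtain ⟨b, h', rfl⟩ := (mem_SS y).1 hy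
    obtain ⟨q, hq, hqs⟩ := seg_walk h h'
    by_cases hab : a = b
    · subst hab
      refine ⟨?_, q.boxProdRight GG (Sum.inl a), ?_, ?_⟩
      · ext v
        simp only [PP, if_true, Set.mem_ofPred_eq]
        constructor
        · rintro ⟨u, hu, rfl⟩
          exact ⟨u, (seg_symm _ _ _).1 hu, rfl⟩
        · rintro ⟨u, hu, rfl⟩
          exact ⟨u, (seg_symm _ _ _).1 hu, rfl⟩
      · rw [length_boxProdRight, dist_prod, hq]
        simp
      · ext v
        rw [support_boxProdRight, hqs]
        simp only [PP, if_true, Set.mem_ofPred_eq, List.mem_map]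
        constructor
        · rintro ⟨u, hu, rfl⟩; exact ⟨u, hu, rfl⟩
        · rintro ⟨u, hu, rfl⟩; exact ⟨u, hu, rfl⟩
    · have hsw : (a = 0 ∧ b = 1) ∨ (a = 1 ∧ b = 0) := by
        exact fin_two a b hab
      -- the walk through column `i`
      have walkThrough : ∀ i : Fin 11, ∃ p : (GG □ HH).Walk (Sum.inl a, h) (Sum.inl b, h'),
          p.length = (GG □ HH).dist (Sum.inl a, h) (Sum.inl b, h') ∧
          ∀ v, v ∈ p.support ↔ (v = (Sum.inl a, h) ∨ v = (Sum.inl b, h') ∨
            ∃ u ∈ seg h h', v = (Sum.inr i, u)) := by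
        intro i
        have e1 : (GG □ HH).Adj (Sum.inl a, h) (Sum.inr i, h) := by
          rw [boxProd_adj]; left; simp
        have e2 : (GG □ HH).Adj (Sum.inr i, h') (Sum.inl b, h') := by
          rw [boxProd_adj]; left; simp
        refine ⟨.cons e1 ((q.boxProdRight GG (Sum.inr i)).append (.cons e2 .nil)), ?_, ?_⟩
        · rw [Walk.length_cons, Walk.length_append, length_boxProdRight, dist_prod]
          simp only [Walk.length_cons, Walk.length_nil]
          rw [dist_left hab, hq]
          omega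
        · intro v
          rw [Walk.support_cons, List.mem_cons, Walk.mem_support_append_iff,
            support_boxProdRight, hqs]
          simp only [List.mem_map, Walk.support_cons, Walk.support_nil, List.mem_cons,
            List.not_mem_nil, or_false]
          constructor
          · rintro (rfl | ⟨u, hu, rfl⟩ | rfl | rfl)
            · exact Or.inl rfl
            · exact Or.inr (Or.inr ⟨u, hu, rfl⟩)
            · refine Or.inr (Or.inr ⟨h', ?_, rfl⟩)
              rw [← hqs]; exact q.end_mem_support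
            · exact Or.inr (Or.inl rfl)
          · rintro (rfl | rfl | ⟨u, hu, rfl⟩)
            · exact Or.inl rfl
            · exact Or.inr (Or.inr (Or.inr rfl))
            · exact Or.inr (Or.inl ⟨u, hu, rfl⟩)
      rcases hsw with ⟨rfl, rfl⟩ | ⟨rfl, rfl⟩
      · obtain ⟨p, hp, hps⟩ := walkThrough (col h h')
        refine ⟨?_, p, hp, ?_⟩
        · ext v
          simp only [PP, Set.mem_ofPred_eq, if_true, if_neg (by decide : ¬ (0 : Fin 2) = 1),
            if_neg (by decide : ¬ (1 : Fin 2) = 0)]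
          constructor
          · rintro (rfl | rfl | ⟨u, hu, rfl⟩)
            · exact Or.inr (Or.inl rfl)
            · exact Or.inl rfl
            · exact Or.inr (Or.inr ⟨u, (seg_symm _ _ _).1 hu, rfl⟩)
          · rintro (rfl | rfl | ⟨u, hu, rfl⟩)
            · exact Or.inr (Or.inl rfl)
            · exact Or.inl rfl
            · exact Or.inr (Or.inr ⟨u, (seg_symm _ _ _).1 hu, rfl⟩)
        · ext v
          simp only [PP, Set.mem_ofPred_eq, if_true, if_neg (by decide : ¬ (0 : Fin 2) = 1)]
          exact (hps v).symm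
      · obtain ⟨p, hp, hps⟩ := walkThrough (col h' h)
        refine ⟨?_, p, hp, ?_⟩
        · ext v
          simp only [PP, Set.mem_ofPred_eq, if_true, if_neg (by decide : ¬ (0 : Fin 2) = 1),
            if_neg (by decide : ¬ (1 : Fin 2) = 0)]
          constructor
          · rintro (rfl | rfl | ⟨u, hu, rfl⟩)
            · exact Or.inr (Or.inl rfl)
            · exact Or.inl rfl
            · exact Or.inr (Or.inr ⟨u, (seg_symm _ _ _).1 hu, rfl⟩)
          · rintro (rfl | rfl | ⟨u, hu, rfl⟩)
            · exact Or.inr (Or.inl rfl)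
            · exact Or.inl rfl
            · exact Or.inr (Or.inr ⟨u, (seg_symm _ _ _).1 hu, rfl⟩)
        · ext v
          simp only [PP, Set.mem_ofPred_eq, if_neg (by decide : ¬ (1 : Fin 2) = 0)]
          exact (hps v).symm
  · rintro ⟨g, u⟩
    rcases g with a | i
    · -- the pair `(a, u)`, `(a, u + 1)`
      refine ⟨(Sum.inl a, u), (mem_SS _).2 ⟨a, u, rfl⟩, (Sum.inl a, u + 1),
        (mem_SS _).2 ⟨a, u + 1, rfl⟩, ?_, ?_⟩
      · intro e
        have : u = u + 1 := (Prod.ext_iff.1 e).2
        exact (by decide : ∀ u : Fin 5, u ≠ u + 1) u this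
      · simp only [PP, if_true, Set.mem_ofPred_eq]
        exact ⟨u, (by decide : ∀ u : Fin 5, u ∈ seg u (u + 1)) u, rfl⟩
    · obtain ⟨h, h', hc, hu⟩ := col_cover i u
      refine ⟨(Sum.inl 0, h), (mem_SS _).2 ⟨0, h, rfl⟩, (Sum.inl 1, h'),
        (mem_SS _).2 ⟨1, h', rfl⟩, by simp, ?_⟩
      simp only [PP, Set.mem_ofPred_eq, if_true, if_neg (by decide : ¬ (0 : Fin 2) = 1)]
      exact Or.inr (Or.inr ⟨u, hu, by rw [hc]⟩)

/-- **The inequality `sg (G □ H) ≥ max (sg G, sg H)` fails.** For the connected graphs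
`G = K_{2,11}` and `H = C_5` one has `sg (G □ H) ≤ 10` and `sg G ≥ 11`, hence
`sg (G □ H) < sg G`. -/
theorem result :
    (completeBipartiteGraph (Fin 2) (Fin 11)).Connected ∧ (cycleGraph 5).Connected ∧
      strongGeodeticNumber (completeBipartiteGraph (Fin 2) (Fin 11) □ cycleGraph 5) ≤ 10 ∧
      11 ≤ strongGeodeticNumber (completeBipartiteGraph (Fin 2) (Fin 11)) ∧
      strongGeodeticNumber (completeBipartiteGraph (Fin 2) (Fin 11) □ cycleGraph 5) <
        strongGeodeticNumber (completeBipartiteGraph (Fin 2) (Fin 11)) := by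
  have h1 : strongGeodeticNumber (completeBipartiteGraph (Fin 2) (Fin 11) □ cycleGraph 5) ≤ 10 :=
    Nat.sInf_le ⟨SS, SS_card, upper⟩
  exact ⟨GG_connected, HH_connected, h1, GG_ge, lt_of_le_of_lt h1 GG_ge⟩

end Pool.Agent.Results.MP_8400ad_co.ProductBelowFactor
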